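import Mathlib
import Pool.Agent.Helper71.PY.Goals

/-!
# Localization of a Noetherian domain at a principal prime ideal is a DVR (packet PY-DVR)
-/

set_option autoImplicit false

namespace Pool.Agent.Helper69.PY

open Pool.Agent.Helper71.PY

theorem dvr : G_DVR := by
  intro R _ _ _ π hπ P hP hPs
  have hne : (algebraMap R (Localization.AtPrime P)) π ≠ 0 := by
    intro h
    have hinj : Function.Injective (algebraMap R (Localization.AtPrime P)) :=
      IsLocalization.injective (Localization.AtPrime P) P.primeCompl_le_nonZeroDivisors
    exact hπ.ne_zero (hinj (by rw [h, map_zero]))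
  have hmax : IsLocalRing.maximalIdeal (Localization.AtPrime P) =
      Ideal.span {(algebraMap R (Localization.AtPrime P)) π} := by
    rw [← Localization.AtPrime.map_eq_maximalIdeal]
    have h1 := congrArg (Ideal.map (algebraMap R (Localization.AtPrime P))) hPs
    rw [h1, Ideal.map_span, Set.image_singleton]
  have : IsNoetherianRing (Localization.AtPrime P) :=
    IsLocalization.isNoetherianRing P.primeCompl _ inferInstance
  have hnf : ¬ IsField (Localization.AtPrime P) := by
    intro h
    have := IsLocalRing.isField_iff_maximalIdeal_eq.1 h
    rw [hmax, Ideal.span_singleton_eq_bot] at this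
    exact hne this
  have hpr : (IsLocalRing.maximalIdeal (Localization.AtPrime P)).IsPrincipal := by
    rw [hmax]
    exact ⟨⟨_, rfl⟩⟩
  exact ((IsDiscreteValuationRing.TFAE (Localization.AtPrime P) hnf).out 4 0).mp hpr

end Pool.Agent.Helper69.PY
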